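import Pool.Agent.TH304.MI.Stm

/-!
# Project MI: numerics A
-/

set_option autoImplicit false

open MeasureTheory Set Metric Filter Topology
open scoped ENNReal Real

noncomputable section

namespace Pool.Agent.TH386.MI

open Pool.Agent.TH304.MI

theorem q_lower (b : ℕ) {t : ℝ} (h0 : 0 ≤ t) (h1 : t ≤ 1) :
    Real.exp (-((b + 1) * t)) * (1 - (b + 1) * t ^ 2) ≤ (1 - t) ^ (b + 1) := by
  have h2 : 1 - t ^ 2 ≤ (1 - t) * Real.exp t := by
    have := Real.add_one_le_exp t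
    nlinarith
  have h3 : (1 - t ^ 2) ^ (b + 1) ≤ ((1 - t) * Real.exp t) ^ (b + 1) :=
    pow_le_pow_left₀ (by nlinarith) h2 _
  have h4 : 1 + ((b + 1 : ℕ) : ℝ) * (-(t ^ 2)) ≤ (1 + -(t ^ 2)) ^ (b + 1) :=
    one_add_mul_le_pow (by nlinarith) _
  rw [mul_pow, ← Real.exp_nat_mul] at h3
  push_cast at h3 h4
  have h5 : 1 - (b + 1) * t ^ 2 ≤ (1 - t) ^ (b + 1) * Real.exp ((b + 1) * t) := by
    have e : (1 + -(t ^ 2)) = 1 - t ^ 2 := by ring
    rw [e] at h4
    linarith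
  calc Real.exp (-((b + 1) * t)) * (1 - (b + 1) * t ^ 2)
      ≤ Real.exp (-((b + 1) * t)) * ((1 - t) ^ (b + 1) * Real.exp ((b + 1) * t)) :=
        mul_le_mul_of_nonneg_left h5 (Real.exp_pos _).le
    _ = (1 - t) ^ (b + 1) := by
        rw [mul_comm, mul_assoc, ← Real.exp_add]
        simp

theorem q_upper (b : ℕ) {t : ℝ} (h1 : t ≤ 1) :
    (1 - t) ^ (b + 1) ≤ Real.exp (-((b + 1) * t)) := by
  have h := pow_le_pow_left₀ (by linarith : 0 ≤ 1 - t) (Real.one_sub_le_exp_neg t) (b + 1)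
  rw [← Real.exp_nat_mul] at h
  push_cast at h
  refine h.trans_eq ?_
  congr 1
  ring

theorem exp_lo {s h : ℝ} (hs : s ≤ h) :
    Real.exp (-h) * (1 + (h - s) + (h - s) ^ 2 / 2) ≤ Real.exp (-s) := by
  have h1 : 1 + (h - s) + (h - s) ^ 2 / 2 ≤ Real.exp (h - s) :=
    Real.quadratic_le_exp_of_nonneg (by linarith)
  calc Real.exp (-h) * (1 + (h - s) + (h - s) ^ 2 / 2)
      ≤ Real.exp (-h) * Real.exp (h - s) := mul_le_mul_of_nonneg_left h1 (Real.exp_pos _).le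
    _ = Real.exp (-s) := by rw [← Real.exp_add]; congr 1; ring

theorem exp_02 : Real.exp 0.2 ≤ 1.2215 := by
  have h := Real.exp_bound' (x := 0.2) (by norm_num) (by norm_num) (n := 5) (by norm_num)
  refine h.trans ?_
  simp only [Finset.sum_range_succ, Finset.sum_range_zero, Nat.factorial]
  norm_num

theorem exp_22_le : Real.exp 2.2 ≤ 9.026 := by
  have h1 : Real.exp 2.2 = Real.exp 1 ^ 2 * Real.exp 0.2 := by
    rw [← Real.exp_nat_mul, ← Real.exp_add]
    norm_num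
  rw [h1]
  have h2 := Real.exp_one_lt_d9
  have h3 := exp_02
  have h4 := Real.exp_pos 1
  have h5 : Real.exp 1 ^ 2 ≤ 2.7182818286 ^ 2 := pow_le_pow_left₀ h4.le h2.le 2
  calc Real.exp 1 ^ 2 * Real.exp 0.2 ≤ 2.7182818286 ^ 2 * 1.2215 :=
        mul_le_mul h5 h3 (Real.exp_pos _).le (by norm_num)
    _ ≤ 9.026 := by norm_num

theorem exp_42_le : Real.exp 4.2 ≤ 66.7 := by
  have h1 : Real.exp 4.2 = Real.exp 1 ^ 4 * Real.exp 0.2 := by
    rw [← Real.exp_nat_mul, ← Real.exp_add]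
    norm_num
  rw [h1]
  have h2 := Real.exp_one_lt_d9
  have h3 := exp_02
  have h4 := Real.exp_pos 1
  have h5 : Real.exp 1 ^ 4 ≤ 2.7182818286 ^ 4 := pow_le_pow_left₀ h4.le h2.le 4
  calc Real.exp 1 ^ 4 * Real.exp 0.2 ≤ 2.7182818286 ^ 4 * 1.2215 :=
        mul_le_mul h5 h3 (Real.exp_pos _).le (by norm_num)
    _ ≤ 66.7 := by norm_num

theorem exp_ge {x y : ℝ} (hx : 0 ≤ x) (n : ℕ)
    (h : y ≤ ∑ i ∈ Finset.range n, x ^ i / (i.factorial : ℝ)) : y ≤ Real.exp x :=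
  h.trans (Real.sum_le_exp_of_nonneg hx n)

theorem exp_06_ge : 1.8 ≤ Real.exp 0.6 := by
  apply exp_ge (by norm_num) 4
  simp only [Finset.sum_range_succ, Finset.sum_range_zero, Nat.factorial]
  norm_num

theorem exp_22_ge : 8.95 ≤ Real.exp 2.2 := by
  apply exp_ge (by norm_num) 7
  simp only [Finset.sum_range_succ, Finset.sum_range_zero, Nat.factorial]
  norm_num

theorem exp_42_ge : 66.46 ≤ Real.exp 4.2 := by
  apply exp_ge (by norm_num) 14
  simp only [Finset.sum_range_succ, Finset.sum_range_zero, Nat.factorial]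
  norm_num

theorem exp_neg_ge {x y : ℝ} (hy : 0 < y) (h : Real.exp x ≤ y) : 1 / y ≤ Real.exp (-x) := by
  rw [Real.exp_neg, ← one_div]
  exact one_div_le_one_div_of_le (Real.exp_pos _) h

theorem exp_neg_le {x y : ℝ} (hy : 0 < y) (h : y ≤ Real.exp x) : Real.exp (-x) ≤ 1 / y := by
  rw [Real.exp_neg, ← one_div]
  exact one_div_le_one_div_of_le hy h

theorem UB (b : ℕ) (t : ℝ) :
    ((b : ℝ) + 2) * U b t = (1 - (1 - t) ^ (b + 1) * (1 + (b + 1) * t)) / (b + 1) := by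
  unfold U
  have h1 : (b : ℝ) + 1 ≠ 0 := by positivity
  have h2 : (b : ℝ) + 2 ≠ 0 := by positivity
  field_simp

theorem m0U (b : ℕ) (t : ℝ) :
    ((b : ℝ) + 2) * (m0 b - U b t) = (1 - t) ^ (b + 1) * (1 + (b + 1) * t) / (b + 1) := by
  unfold U m0
  have h1 : (b : ℝ) + 1 ≠ 0 := by positivity
  have h2 : (b : ℝ) + 2 ≠ 0 := by positivity
  field_simp
  ring

/-- the two calibration inequalities from two scalar inequalities -/
theorem calib {b : ℕ} {κ t : ℝ} (hκ : 0 ≤ κ) (ht0 : 0 ≤ t) (ht1 : t < 1)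
    (h1 : κ < (1 - t) ^ (b + 1) * (κ + (κ + 1) * ((b + 1) * t)))
    (h2 : κ * (1 + (b + 1) * t) < (b + 1) * t) :
    κ * (b + 2) * U b t < t * (1 - t) ^ b ∧
    κ * (b + 2) * (m0 b - U b t) < t * (1 - t) ^ b := by
  have hB : (0 : ℝ) < (b : ℝ) + 1 := by positivity
  have hw : 0 < (1 - t) ^ b := pow_pos (by linarith) _
  have hq : (1 - t) ^ (b + 1) = (1 - t) ^ b * (1 - t) := pow_succ _ _
  have hqw : (1 - t) ^ (b + 1) ≤ (1 - t) ^ b := by
    rw [hq]
    nlinarith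
  have hs : 0 ≤ ((b : ℝ) + 1) * t := by positivity
  constructor
  · rw [mul_assoc, UB, ← mul_div_assoc, div_lt_iff₀ hB]
    nlinarith [mul_le_mul_of_nonneg_right hqw hs]
  · rw [mul_assoc, m0U, ← mul_div_assoc, div_lt_iff₀ hB]
    have h3 : κ * ((1 - t) ^ (b + 1) * (1 + (b + 1) * t)) ≤
        (1 - t) ^ b * (κ * (1 + (b + 1) * t)) := by
      have : 0 ≤ κ * (1 + (b + 1) * t) := by positivity
      nlinarith [mul_le_mul_of_nonneg_right hqw this]
    have h4 : (1 - t) ^ b * (κ * (1 + (b + 1) * t)) < (1 - t) ^ b * ((b + 1) * t) :=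
      mul_lt_mul_of_pos_left h2 hw
    nlinarith

theorem part1 {b : ℕ} (hb : 10000 ≤ b) {t : ℝ} (h1 : 0.6 / (b + 1) ≤ t)
    (h2 : t ≤ 2.2 / (b + 1)) :
    0.37 * (b + 2) * U b t < t * (1 - t) ^ b ∧
    0.37 * (b + 2) * (m0 b - U b t) < t * (1 - t) ^ b := by
  have hb' : (10000 : ℝ) ≤ b := by exact_mod_cast hb
  have hB : (0 : ℝ) < (b : ℝ) + 1 := by positivity
  rw [div_le_iff₀ hB] at h1
  rw [le_div_iff₀ hB] at h2
  obtain ⟨s, hs⟩ : ∃ s : ℝ, s = ((b : ℝ) + 1) * t := ⟨_, rfl⟩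
  have hs1 : 0.6 ≤ s := by rw [hs]; linarith
  have hs2 : s ≤ 2.2 := by rw [hs]; linarith
  have ht0 : 0 ≤ t := by
    by_contra hneg
    push Not at hneg
    nlinarith
  have ht1 : t ≤ 2.2 / 10001 := by
    rw [le_div_iff₀ (by norm_num)]
    nlinarith
  have hts : ((b : ℝ) + 1) * t ^ 2 ≤ 0.0005 := by
    have : ((b : ℝ) + 1) * t ^ 2 = s * t := by rw [hs]; ring
    rw [this]
    nlinarith
  have hq := q_lower b ht0 (by linarith)
  rw [← hs] at hq
  have he := exp_lo hs2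
  have h22 : 1 / 9.026 ≤ Real.exp (-2.2) := exp_neg_ge (by norm_num) exp_22_le
  apply calib (by norm_num) ht0 (by linarith)
  · rw [← hs]
    -- lower bound for q
    have h3 : Real.exp (-s) * 0.9995 ≤ (1 - t) ^ (b + 1) := by
      refine le_trans ?_ hq
      exact mul_le_mul_of_nonneg_left (by linarith) (Real.exp_pos _).le
    have h4 : 1 / 9.026 * (1 + (2.2 - s) + (2.2 - s) ^ 2 / 2) ≤ Real.exp (-s) := by
      refine le_trans ?_ he
      exact mul_le_mul_of_nonneg_right h22 (by nlinarith)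
    have h5 : 1 / 9.026 * (1 + (2.2 - s) + (2.2 - s) ^ 2 / 2) * 0.9995 ≤ (1 - t) ^ (b + 1) :=
      le_trans (mul_le_mul_of_nonneg_right h4 (by norm_num)) h3
    have h6 : 0 < 0.37 + (0.37 + 1) * s := by nlinarith
    refine lt_of_lt_of_le ?_ (mul_le_mul_of_nonneg_right h5 h6.le)
    nlinarith [mul_nonneg (sub_nonneg.2 hs2) (sub_nonneg.2 hs1),
      mul_nonneg (mul_nonneg (sub_nonneg.2 hs2) (sub_nonneg.2 hs1)) (sub_nonneg.2 hs2)]
  · rw [← hs]
    linarith

theorem part2 {b : ℕ} (hb : 10000 ≤ b) {t : ℝ} (h1 : 2.2 / (b + 1) ≤ t)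
    (h2 : t ≤ 4.2 / (b + 1)) :
    0.065 * (b + 2) * U b t < t * (1 - t) ^ b ∧
    0.065 * (b + 2) * (m0 b - U b t) < t * (1 - t) ^ b := by
  have hb' : (10000 : ℝ) ≤ b := by exact_mod_cast hb
  have hB : (0 : ℝ) < (b : ℝ) + 1 := by positivity
  rw [div_le_iff₀ hB] at h1
  rw [le_div_iff₀ hB] at h2
  obtain ⟨s, hs⟩ : ∃ s : ℝ, s = ((b : ℝ) + 1) * t := ⟨_, rfl⟩
  have hs1 : 2.2 ≤ s := by rw [hs]; linarith
  have hs2 : s ≤ 4.2 := by rw [hs]; linarith
  have ht0 : 0 ≤ t := by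
    by_contra hneg
    push Not at hneg
    nlinarith
  have ht1 : t ≤ 4.2 / 10001 := by
    rw [le_div_iff₀ (by norm_num)]
    nlinarith
  have hts : ((b : ℝ) + 1) * t ^ 2 ≤ 0.0018 := by
    have : ((b : ℝ) + 1) * t ^ 2 = s * t := by rw [hs]; ring
    rw [this]
    nlinarith
  have hq := q_lower b ht0 (by linarith)
  rw [← hs] at hq
  have he := exp_lo hs2
  have h22 : 1 / 66.7 ≤ Real.exp (-4.2) := exp_neg_ge (by norm_num) exp_42_le
  apply calib (by norm_num) ht0 (by linarith)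
  · rw [← hs]
    have h3 : Real.exp (-s) * 0.9982 ≤ (1 - t) ^ (b + 1) := by
      refine le_trans ?_ hq
      exact mul_le_mul_of_nonneg_left (by linarith) (Real.exp_pos _).le
    have h4 : 1 / 66.7 * (1 + (4.2 - s) + (4.2 - s) ^ 2 / 2) ≤ Real.exp (-s) := by
      refine le_trans ?_ he
      exact mul_le_mul_of_nonneg_right h22 (by nlinarith)
    have h5 : 1 / 66.7 * (1 + (4.2 - s) + (4.2 - s) ^ 2 / 2) * 0.9982 ≤ (1 - t) ^ (b + 1) :=
      le_trans (mul_le_mul_of_nonneg_right h4 (by norm_num)) h3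
    have h6 : 0 < 0.065 + (0.065 + 1) * s := by nlinarith
    refine lt_of_lt_of_le ?_ (mul_le_mul_of_nonneg_right h5 h6.le)
    nlinarith [mul_nonneg (sub_nonneg.2 hs2) (sub_nonneg.2 hs1),
      mul_nonneg (mul_nonneg (sub_nonneg.2 hs2) (sub_nonneg.2 hs1)) (sub_nonneg.2 hs2)]
  · rw [← hs]
    linarith

theorem U_deriv (b : ℕ) (r : ℝ) : HasDerivAt (U b) (r * (1 - r) ^ b) r := by
  have h1 : HasDerivAt (fun r : ℝ => (1 - r)) (-1) r := by
    simpa using (hasDerivAt_id r).const_sub 1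
  have h2 := h1.pow (b + 1)
  have h3 : HasDerivAt (fun r : ℝ => 1 + ((b : ℝ) + 1) * r) ((b : ℝ) + 1) r := by
    simpa using ((hasDerivAt_id r).const_mul ((b : ℝ) + 1)).const_add 1
  have h4 := ((h2.mul h3).const_sub 1).div_const (((b : ℝ) + 1) * (b + 2))
  have h5 : HasDerivAt (U b) _ r := h4
  convert h5 using 1
  have e1 : (b : ℝ) + 1 ≠ 0 := by positivity
  have e2 : (b : ℝ) + 2 ≠ 0 := by positivity
  rw [Nat.add_sub_cancel, Pi.pow_apply]
  push_cast
  field_simp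
  ring

theorem U_zero (b : ℕ) : U b 0 = 0 := by
  unfold U
  simp

/-- linear bound -/
theorem U_lin {b : ℕ} (hb : 10000 ≤ b) {r : ℝ} (h0 : 0 < r) (h1 : r < 1) :
    0 ≤ ((b : ℝ) + 2) * U b r / r ∧ ((b : ℝ) + 2) * U b r / r ≤ 0.3681 := by
  have hb' : (10000 : ℝ) ≤ b := by exact_mod_cast hb
  obtain ⟨ξ, hξ, he⟩ := exists_hasDerivAt_eq_slope (U b) (fun r => r * (1 - r) ^ b) h0
    (fun x _ => (U_deriv b x).continuousAt.continuousWithinAt) (fun x _ => U_deriv b x)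
  rw [U_zero, sub_zero, sub_zero] at he
  have hξ0 : 0 < ξ := hξ.1
  have hξ1 : ξ < 1 := hξ.2.trans h1
  have h2 : ((b : ℝ) + 2) * U b r / r = ((b : ℝ) + 2) * (ξ * (1 - ξ) ^ b) := by
    rw [he]
    ring
  rw [h2]
  have h3 : 0 ≤ (1 - ξ) ^ b := pow_nonneg (by linarith) _
  refine ⟨by positivity, ?_⟩
  have h4 : (1 - ξ) ^ b ≤ Real.exp (-(b * ξ)) := by
    have h := pow_le_pow_left₀ (by linarith : 0 ≤ 1 - ξ) (Real.one_sub_le_exp_neg ξ) b
    rw [← Real.exp_nat_mul] at h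
    refine h.trans_eq ?_
    congr 1
    ring
  have h5 : (b : ℝ) * ξ * Real.exp (-(b * ξ)) ≤ Real.exp (-1) := by
    have h := Real.add_one_le_exp ((b : ℝ) * ξ - 1)
    have h6 : (b : ℝ) * ξ ≤ Real.exp ((b : ℝ) * ξ - 1) := by linarith
    calc (b : ℝ) * ξ * Real.exp (-(b * ξ)) ≤ Real.exp ((b : ℝ) * ξ - 1) * Real.exp (-(b * ξ)) :=
          mul_le_mul_of_nonneg_right h6 (Real.exp_pos _).le
      _ = Real.exp (-1) := by rw [← Real.exp_add]; congr 1; ring
  have h7 : Real.exp (-1) ≤ 0.36788 := by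
    have h := exp_neg_le (x := 1) (y := 2.7182818283) (by norm_num) Real.exp_one_gt_d9.le
    refine h.trans (by norm_num)
  have h8 : (b : ℝ) * (ξ * (1 - ξ) ^ b) ≤ 0.36788 := by
    have : (b : ℝ) * ξ * (1 - ξ) ^ b ≤ (b : ℝ) * ξ * Real.exp (-(b * ξ)) :=
      mul_le_mul_of_nonneg_left h4 (by positivity)
    linarith
  have h9 : ξ * (1 - ξ) ^ b ≤ 0.00004 := by
    by_contra hneg
    push Not at hneg
    nlinarith
  linarith

theorem sqrt_ge {w x : ℝ} (hw : 0 < w) : w - x ^ 2 / w ≤ √(w ^ 2 - x ^ 2) := by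
  by_cases h : w - x ^ 2 / w ≤ 0
  · exact h.trans (Real.sqrt_nonneg _)
  · push Not at h
    apply Real.le_sqrt_of_sq_le
    have h1 : x ^ 2 / w < w := by linarith
    have h2 : (x ^ 2 / w) * w = x ^ 2 := div_mul_cancel₀ _ hw.ne'
    have h3 : 0 ≤ x ^ 2 / w := by positivity
    have h4 : (w - x ^ 2 / w) ^ 2 = w ^ 2 - 2 * ((x ^ 2 / w) * w) + (x ^ 2 / w) * (x ^ 2 / w) := by
      ring
    rw [h4, h2]
    have h5 : (x ^ 2 / w) * (x ^ 2 / w) ≤ (x ^ 2 / w) * w := mul_le_mul_of_nonneg_left h1.le h3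
    rw [h2] at h5
    linarith

theorem int_lower {b : ℕ} (hb : 10000 ≤ b) {κ τ : ℝ} (hκ : 0 ≤ κ) (hτ : 0 < τ)
    (hτ2 : τ ≤ 2.2) :
    (1 - Real.exp (-τ) - (κ * 0.3681) ^ 2 * 1.0005 * (Real.exp τ - 1)) / (b + 1) ≤
      ∫ r in (0 : ℝ)..(τ / (b + 1)), √((1 - r) ^ (2 * b) - (κ * (b + 2) * U b r / r) ^ 2) := by
  have hb' : (10000 : ℝ) ≤ b := by exact_mod_cast hb
  have hB : (0 : ℝ) < (b : ℝ) + 1 := by positivity
  obtain ⟨T, hT⟩ : ∃ T : ℝ, T = τ / ((b : ℝ) + 1) := ⟨_, rfl⟩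
  have hT0 : 0 < T := by rw [hT]; positivity
  have hT1 : T ≤ 0.00022 := by
    rw [hT, div_le_iff₀ hB]
    nlinarith
  have hBT : ((b : ℝ) + 1) * T = τ := by rw [hT]; field_simp
  obtain ⟨c, hc⟩ : ∃ c : ℝ, c = (κ * 0.3681) ^ 2 * 1.0005 := ⟨_, rfl⟩
  have hc0 : 0 ≤ c := by rw [hc]; positivity
  rw [← hT]
  -- the minorant
  have hg : ∫ r in (0 : ℝ)..T, ((1 - r) ^ b - c * Real.exp (((b : ℝ) + 1) * r)) =
      (1 - (1 - T) ^ (b + 1)) / ((b : ℝ) + 1) - c / ((b : ℝ) + 1) * (Real.exp τ - 1) := by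
    have hd : ∀ x ∈ uIcc (0 : ℝ) T, HasDerivAt (fun r : ℝ => -(1 - r) ^ (b + 1) / ((b : ℝ) + 1) -
        c / ((b : ℝ) + 1) * Real.exp (((b : ℝ) + 1) * r))
        ((1 - x) ^ b - c * Real.exp (((b : ℝ) + 1) * x)) x := by
      intro x _
      have h1 : HasDerivAt (fun r : ℝ => (1 - r)) (-1) x := by
        simpa using (hasDerivAt_id x).const_sub 1
      have h2 := (h1.pow (b + 1)).neg.div_const ((b : ℝ) + 1)
      have h3 : HasDerivAt (fun r : ℝ => ((b : ℝ) + 1) * r) ((b : ℝ) + 1) x := by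
        simpa using (hasDerivAt_id x).const_mul ((b : ℝ) + 1)
      have h4 := (h3.exp).const_mul (c / ((b : ℝ) + 1))
      have h5 : HasDerivAt (fun r : ℝ => -(1 - r) ^ (b + 1) / ((b : ℝ) + 1) -
        c / ((b : ℝ) + 1) * Real.exp (((b : ℝ) + 1) * r)) _ x := h2.sub h4
      convert h5 using 1
      rw [Nat.add_sub_cancel]
      push_cast
      field_simp
    rw [intervalIntegral.integral_eq_sub_of_hasDerivAt hd
      (Continuous.intervalIntegrable (by fun_prop) _ _)]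
    rw [hBT]
    simp only [sub_zero, one_pow, mul_zero, Real.exp_zero]
    field_simp
    ring
  have hgi : IntervalIntegrable (fun r : ℝ => (1 - r) ^ b - c * Real.exp (((b : ℝ) + 1) * r))
      volume 0 T := Continuous.intervalIntegrable (by fun_prop) _ _
  have hfm : Measurable (fun r : ℝ =>
      √((1 - r) ^ (2 * b) - (κ * (b + 2) * U b r / r) ^ 2)) := by
    unfold U
    fun_prop
  have hfi : IntervalIntegrable (fun r : ℝ =>
      √((1 - r) ^ (2 * b) - (κ * (b + 2) * U b r / r) ^ 2)) volume 0 T := by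
    refine (intervalIntegrable_const (c := (1 : ℝ))).mono_fun' hfm.aestronglyMeasurable ?_
    refine (ae_restrict_iff' measurableSet_uIoc).2 (Filter.Eventually.of_forall fun r hr => ?_)
    rw [uIoc_of_le hT0.le] at hr
    simp only [Real.norm_eq_abs, abs_of_nonneg (Real.sqrt_nonneg _)]
    rw [Real.sqrt_le_one]
    have h1 : (1 - r) ^ (2 * b) ≤ 1 := pow_le_one₀ (by linarith [hr.2]) (by linarith [hr.1])
    nlinarith [sq_nonneg (κ * (b + 2) * U b r / r)]
  have hmono := intervalIntegral.integral_mono_on hT0.le hgi hfi (fun r hr => by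
    have hr0 : 0 ≤ r := hr.1
    have hr1 : r < 1 := by linarith [hr.2]
    have hw : 0 < (1 - r) ^ b := pow_pos (by linarith) _
    have h1 : (1 - r) ^ (2 * b) = ((1 - r) ^ b) ^ 2 := by rw [mul_comm, pow_mul]
    rw [h1]
    refine le_trans ?_ (sqrt_ge hw)
    have h2 : (κ * (b + 2) * U b r / r) ^ 2 ≤ (κ * 0.3681) ^ 2 := by
      rcases hr0.eq_or_lt with h | h
      · rw [← h, div_zero, zero_pow two_ne_zero]
        positivity
      · obtain ⟨h3, h4⟩ := U_lin hb h hr1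
        have h5 : κ * (b + 2) * U b r / r = κ * (((b : ℝ) + 2) * U b r / r) := by ring
        rw [h5]
        exact pow_le_pow_left₀ (mul_nonneg hκ h3) (mul_le_mul_of_nonneg_left h4 hκ) 2
    have h6 : 1 / (1 - r) ^ b ≤ 1.0005 * Real.exp (((b : ℝ) + 1) * r) := by
      rw [div_le_iff₀ hw]
      have h7 : (1 - r) ^ (b + 1) ≤ (1 - r) ^ b := by
        rw [pow_succ]
        nlinarith
      have h8 := q_lower b hr0 hr1.le
      have h9 : ((b : ℝ) + 1) * r ^ 2 ≤ 0.000484 := by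
        have h10 : ((b : ℝ) + 1) * r ≤ 2.2 := by
          have := mul_le_mul_of_nonneg_left hr.2 hB.le
          rw [hBT] at this
          linarith
        have h11 : r ≤ 0.00022 := hr.2.trans hT1
        nlinarith
      have h12 : Real.exp (-(((b : ℝ) + 1) * r)) * 0.999516 ≤ (1 - r) ^ b := by
        refine le_trans ?_ (h8.trans h7)
        exact mul_le_mul_of_nonneg_left (by linarith) (Real.exp_pos _).le
      have h13 : Real.exp (((b : ℝ) + 1) * r) * Real.exp (-(((b : ℝ) + 1) * r)) = 1 := by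
        rw [← Real.exp_add]
        simp
      have h14 := mul_le_mul_of_nonneg_left h12 (Real.exp_pos (((b : ℝ) + 1) * r)).le
      nlinarith
    have h15 : (κ * (b + 2) * U b r / r) ^ 2 / (1 - r) ^ b ≤
        c * Real.exp (((b : ℝ) + 1) * r) := by
      have e : (κ * (b + 2) * U b r / r) ^ 2 / (1 - r) ^ b =
          (κ * (b + 2) * U b r / r) ^ 2 * (1 / (1 - r) ^ b) := by ring
      rw [e, hc, mul_assoc ((κ * 0.3681) ^ 2)]
      exact mul_le_mul h2 h6 (by positivity) (by positivity)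
    linarith)
  refine le_trans ?_ hmono
  rw [hg, hc]
  have h16 := q_upper b (t := T) (by linarith)
  rw [hBT] at h16
  rw [div_mul_eq_mul_div, ← sub_div]
  apply div_le_div_of_nonneg_right _ hB.le
  linarith

theorem int_pow (b : ℕ) {T τ : ℝ} (hT1 : T ≤ 1) (hBT : ((b : ℝ) + 1) * T = τ) :
    (1 - Real.exp (-τ)) / (b + 1) ≤ ∫ r in (0 : ℝ)..T, (1 - r) ^ b := by
  have hB : (0 : ℝ) < (b : ℝ) + 1 := by positivity
  have hd : ∀ x ∈ uIcc (0 : ℝ) T, HasDerivAt (fun r : ℝ => -(1 - r) ^ (b + 1) / ((b : ℝ) + 1))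
      ((1 - x) ^ b) x := by
    intro x _
    have h1 : HasDerivAt (fun r : ℝ => (1 - r)) (-1) x := by
      simpa using (hasDerivAt_id x).const_sub 1
    have h5 : HasDerivAt (fun r : ℝ => -(1 - r) ^ (b + 1) / ((b : ℝ) + 1)) _ x :=
      (h1.pow (b + 1)).neg.div_const ((b : ℝ) + 1)
    convert h5 using 1
    rw [Nat.add_sub_cancel]
    push_cast
    field_simp
  rw [intervalIntegral.integral_eq_sub_of_hasDerivAt hd
    (Continuous.intervalIntegrable (by fun_prop) _ _)]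
  have h16 := q_upper b (t := T) hT1
  rw [hBT] at h16
  rw [← sub_div]
  apply div_le_div_of_nonneg_right _ hB.le
  simp only [sub_zero, one_pow]
  linarith

theorem pim0 (b : ℕ) (κ : ℝ) : κ * ((b : ℝ) + 2) * (π * m0 b) = κ * π / (b + 1) := by
  unfold m0
  have h1 : (b : ℝ) + 1 ≠ 0 := by positivity
  have h2 : (b : ℝ) + 2 ≠ 0 := by positivity
  field_simp

theorem t_numA : S_numA := by
  intro b hb
  have hb' : (10000 : ℝ) ≤ b := by exact_mod_cast hb
  have hB : (0 : ℝ) < (b : ℝ) + 1 := by positivity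
  have hpi := Real.pi_gt_d4
  refine ⟨fun t h1 h2 => part1 hb h1 h2, fun t h1 h2 => part2 hb h1 h2, ?_, ?_, ?_⟩
  · have h := int_lower hb (κ := 0.37) (τ := 0.6) (by norm_num) (by norm_num) (by norm_num)
    rw [pim0]
    have h1 : Real.exp (-0.6) ≤ 1 / 1.8 := exp_neg_le (by norm_num) exp_06_ge
    have h2 : Real.exp 0.6 ≤ 2.7182818286 :=
      (Real.exp_le_exp.2 (by norm_num)).trans Real.exp_one_lt_d9.le
    have h3 : 1.9699 / ((b : ℝ) + 1) ≤ 0.37 * π / (b + 1) +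
        2 * ((1 - Real.exp (-0.6) - (0.37 * 0.3681) ^ 2 * 1.0005 * (Real.exp 0.6 - 1)) /
          (b + 1)) := by
      rw [← mul_div_assoc, ← add_div]
      apply div_le_div_of_nonneg_right _ hB.le
      norm_num at h1 h2 ⊢
      linarith
    linarith
  · have h := int_lower hb (κ := 0.065) (τ := 2.2) (by norm_num) (by norm_num) (by norm_num)
    rw [pim0]
    have h1 : Real.exp (-2.2) ≤ 1 / 8.95 := exp_neg_le (by norm_num) exp_22_ge
    have h2 := exp_22_le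
    have h3 : 1.9699 / ((b : ℝ) + 1) ≤ 0.065 * π / (b + 1) +
        2 * ((1 - Real.exp (-2.2) - (0.065 * 0.3681) ^ 2 * 1.0005 * (Real.exp 2.2 - 1)) /
          (b + 1)) := by
      rw [← mul_div_assoc, ← add_div]
      apply div_le_div_of_nonneg_right _ hB.le
      norm_num at h1 h2 hpi ⊢
      linarith
    linarith
  · have h := int_pow b (T := 4.2 / (b + 1)) (τ := 4.2)
      (by rw [div_le_iff₀ hB]; linarith) (by field_simp)
    have h1 : Real.exp (-4.2) ≤ 1 / 66.46 := exp_neg_le (by norm_num) exp_42_ge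
    have h3 : 1.9699 / ((b : ℝ) + 1) ≤ 2 * ((1 - Real.exp (-4.2)) / (b + 1)) := by
      rw [← mul_div_assoc]
      apply div_le_div_of_nonneg_right _ hB.le
      norm_num at h1 ⊢
      linarith
    linarith

end Pool.Agent.TH386.MI
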